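import Pool.Agent.P.MP_dd23d5_gt.Model

/-!
Construction of a model by recursion on the stages.
-/

namespace Pool.Agent.P.MP_dd23d5_gt

open Set

/-- the raw codes of points -/
structure Codes (S : Scale) where
  T : Type
  st : T → S.I
  idx : T → Option ℕ
  pp : T → ℕ → ℚ
  VV : T → ℕ → Set T
  lt : ∀ t j, ∀ v ∈ VV t j, st v < st t
  ext : ∀ s t, st s = st t → idx s = idx t → pp s = pp t → VV s = VV t → s = t
  surj : ∀ (γ : S.I) (i : Option ℕ) (p : ℕ → ℚ) (V : ℕ → Set T), (∀ j, ∀ v ∈ V j, st v < γ) →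
    ∃ t, st t = γ ∧ idx t = i ∧ pp t = p ∧ VV t = V

theorem nonempty_codes (S : Scale) : Nonempty (Codes S) := by
  obtain ⟨T, st, dt, VV, h1, h2, h3⟩ := exists_codes S.I (Option ℕ × (ℕ → ℚ))
  refine ⟨⟨T, st, fun t => (dt t).1, fun t => (dt t).2, VV, h1,
    fun s t a b c d => h2 s t a (Prod.ext b c) d, fun γ i p V hV => ?_⟩⟩
  obtain ⟨t, a, b, c⟩ := h3 γ (i, p) V hV
  exact ⟨t, a, by rw [b], by rw [b], c⟩

namespace Codes

variable {S : Scale} (C : Codes S)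

/-- position inside a chain -/
def kk (t : C.T) : ℕ := (C.idx t).getD 0

/-- rank -/
def rk (t : C.T) : ℚ := C.pp t (C.kk t)

/-- the points of earlier stages above `t` -/
def V (t : C.T) : Set C.T := C.VV t (C.kk t)

/-- the order inside one block -/
def blk (x w : C.T) : Prop :=
  C.st w = C.st x ∧ C.pp w = C.pp x ∧
    ((C.idx x = none ∧ C.idx w = none ∧ C.V w ⊆ C.V x) ∨
      (C.idx x ≠ none ∧ C.idx w ≠ none ∧ C.kk x ≤ C.kk w ∧ C.VV w = C.VV x))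

/-- the order -/
def le (x w : C.T) : Prop := w ∈ C.V x ∨ C.blk x w

/-- local conditions on a code -/
def Loc (x : C.T) : Prop :=
  (∀ j, ∀ v ∈ C.VV x j, C.pp x j < C.rk v) ∧
  (∀ j n, (S.lab C.st C.rk (C.VV x j) n).card ≤ S.capP (C.pp x j) n) ∧
  (C.idx x = none → ∀ j, C.pp x j = C.pp x 0 ∧ C.VV x j = C.VV x 0) ∧
  (C.idx x ≠ none → StrictMono (C.pp x) ∧ Monotone (fun j => en (C.pp x j)) ∧
    Antitone (C.VV x) ∧ ∃ u, (∀ j, u ∈ C.VV x j) ∧ (∀ w, (∀ j, w ∈ C.VV x j) → C.le u w) ∧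
      ∀ r < C.rk u, ∃ j, r < C.pp x j)

/-- valid codes -/
def valid : C.T → Prop :=
  WellFounded.fix (C := fun _ => Prop) (InvImage.wf C.st wellFounded_lt) fun x rec =>
    (∀ j v (h : v ∈ C.VV x j), rec v (C.lt x j v h)) ∧
    (∀ j, ∀ v ∈ C.VV x j, ∀ w (hw : C.st w < C.st x), rec w hw → C.le v w → w ∈ C.VV x j) ∧
    C.Loc x

variable {C}

lemma le_st {x w : C.T} (h : C.le x w) : C.st w ≤ C.st x := by
  rcases h with h | h
  · exact (C.lt x _ w h).le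
  · exact h.1.le

lemma valid_iff (x : C.T) : C.valid x ↔ (∀ j, ∀ v ∈ C.VV x j, C.valid v) ∧
    (∀ j, ∀ v ∈ C.VV x j, ∀ w, C.valid w → C.le v w → w ∈ C.VV x j) ∧ C.Loc x := by
  rw [valid, WellFounded.fix_eq]
  refine and_congr Iff.rfl (and_congr ?_ Iff.rfl)
  constructor
  · intro h j v hv w hw hvw
    exact h j v hv w (lt_of_le_of_lt (le_st hvw) (C.lt x j v hv)) hw hvw
  · intro h j v hv w _ hw hvw
    exact h j v hv w hw hvw

lemma kk_none {x : C.T} (h : C.idx x = none) : C.kk x = 0 := by simp [kk, h]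

lemma kk_some {x : C.T} {k : ℕ} (h : C.idx x = some k) : C.kk x = k := by simp [kk, h]

lemma blk_refl (x : C.T) : C.blk x x := by
  refine ⟨rfl, rfl, ?_⟩
  by_cases h : C.idx x = none
  · exact Or.inl ⟨h, h, subset_rfl⟩
  · exact Or.inr ⟨h, h, le_rfl, rfl⟩

lemma blk_trans {x w v : C.T} (h : C.blk x w) (h' : C.blk w v) : C.blk x v := by
  refine ⟨h'.1.trans h.1, h'.2.1.trans h.2.1, ?_⟩
  rcases h.2.2 with ⟨a, b, c⟩ | ⟨a, b, c, d⟩ <;> rcases h'.2.2 with ⟨a', b', c'⟩ | ⟨a', b', c', d'⟩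
  · exact Or.inl ⟨a, b', c'.trans c⟩
  · exact absurd b a'
  · exact absurd a' b
  · exact Or.inr ⟨a, b', c.trans c', d'.trans d⟩

lemma blk_V {x w : C.T} (hx : C.valid x) (h : C.blk x w) : C.V w ⊆ C.V x := by
  rcases h.2.2 with ⟨-, -, c⟩ | ⟨a, -, c, d⟩
  · exact c
  · unfold V
    rw [d]
    exact (((valid_iff x).mp hx).2.2.2.2.2 a).2.2.1 c

lemma blk_rk {x w : C.T} (hx : C.valid x) (h : C.blk x w) :
    C.rk x ≤ C.rk w ∧ en (C.rk x) ≤ en (C.rk w) := by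
  unfold rk
  rw [h.2.1]
  rcases h.2.2 with ⟨a, b, -⟩ | ⟨a, -, c, -⟩
  · rw [kk_none a, kk_none b]
    exact ⟨le_rfl, le_rfl⟩
  · have := ((valid_iff x).mp hx).2.2.2.2.2 a
    exact ⟨this.1.monotone c, this.2.1 c⟩

lemma blk_antisymm {x w : C.T} (hx : C.valid x) (hw : C.valid w) (h : C.blk x w)
    (h' : C.blk w x) : x = w := by
  rcases h.2.2 with ⟨a, b, c⟩ | ⟨a, b, c, d⟩ <;> rcases h'.2.2 with ⟨a', b', c'⟩ | ⟨a', b', c', d'⟩
  · refine C.ext x w h'.1 (a.trans b.symm) h'.2.1 (funext fun j => ?_)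
    rw [(((valid_iff x).mp hx).2.2.2.2.1 a j).2, (((valid_iff w).mp hw).2.2.2.2.1 b j).2]
    have := Subset.antisymm c' c
    unfold V at this
    rwa [kk_none a, kk_none b] at this
  · exact absurd b a'
  · exact absurd a' b
  · refine C.ext x w h'.1 ?_ h'.2.1 d'
    obtain ⟨k, hk⟩ := Option.ne_none_iff_exists'.mp a
    obtain ⟨k', hk'⟩ := Option.ne_none_iff_exists'.mp b
    rw [kk_some hk, kk_some hk'] at c c'
    rw [hk, hk', le_antisymm c c']

lemma blk_of_le {x w : C.T} (h : C.le x w) (hs : ¬ C.st w < C.st x) : C.blk x w := by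
  rcases h with h | h
  · exact absurd (C.lt x _ w h) hs
  · exact h

lemma mem_of_le {x w : C.T} (h : C.le x w) (hs : C.st w < C.st x) : w ∈ C.V x := by
  rcases h with h | h
  · exact h
  · exact absurd h.1 hs.ne

variable (C) in
/-- the points -/
def Pt : Type := {x : C.T // C.valid x}

instance : PartialOrder C.Pt where
  le x w := C.le x.1 w.1
  le_refl x := Or.inr (blk_refl x.1)
  le_trans x w v h h' := by
    rcases h with h | h
    · exact Or.inl (((valid_iff x.1).mp x.2).2.1 _ _ h _ v.2 h')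
    · rcases h' with h' | h'
      · exact Or.inl (blk_V x.2 h h')
      · exact Or.inr (blk_trans h h')
  le_antisymm x w h h' :=
    Subtype.ext (blk_antisymm x.2 w.2 (blk_of_le h (not_lt.mpr (le_st h')))
      (blk_of_le h' (not_lt.mpr (le_st h))))

lemma le_def {x w : C.Pt} : x ≤ w ↔ C.le x.1 w.1 := Iff.rfl

lemma lab_image (U : Set C.Pt) (n : ℕ) :
    S.lab C.st C.rk (Subtype.val '' U) n =
      S.lab (fun x : C.Pt => C.st x.1) (fun x : C.Pt => C.rk x.1) U n := by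
  ext a
  simp only [Scale.mem_lab]
  constructor
  · rintro ⟨_, ⟨w, hw, rfl⟩, ha⟩
    exact ⟨w, hw, ha⟩
  · rintro ⟨w, hw, ha⟩
    exact ⟨w.1, ⟨w, hw, rfl⟩, ha⟩

lemma mem_image_val {U : Set C.Pt} {w : C.Pt} : w.1 ∈ Subtype.val '' U ↔ w ∈ U :=
  Subtype.val_injective.mem_set_image

lemma z_exists (U : Set C.Pt) (q : ℚ) (γ : S.I) (h1 : IsUpperSet U)
    (h2 : ∀ w ∈ U, C.st w.1 < γ ∧ q < C.rk w.1)
    (h3 : ∀ n, (S.lab (fun x : C.Pt => C.st x.1) (fun x : C.Pt => C.rk x.1) U n).card ≤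
      S.capP q n) :
    ∃ z : C.Pt, C.idx z.1 = none ∧ C.st z.1 = γ ∧ C.pp z.1 = (fun _ => q) ∧
      C.V z.1 = Subtype.val '' U := by
  obtain ⟨t, a, b, c, d⟩ := C.surj γ none (fun _ => q) (fun _ => Subtype.val '' U) (by
    rintro j _ ⟨w, hw, rfl⟩
    exact (h2 w hw).1)
  refine ⟨⟨t, (valid_iff t).mpr ⟨?_, ?_, ?_, ?_, ?_, ?_⟩⟩, b, a, c, by simp only [V, d]⟩
  · rw [d]
    rintro j _ ⟨w, -, rfl⟩
    exact w.2
  · rw [d]
    rintro j _ ⟨v, hv, rfl⟩ w hw hvw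
    exact ⟨⟨w, hw⟩, h1 (a := v) (b := ⟨w, hw⟩) hvw hv, rfl⟩
  · rw [d, c]
    rintro j _ ⟨w, hw, rfl⟩
    exact (h2 w hw).2
  · rw [d, c]
    intro j n
    rw [lab_image]
    exact h3 n
  · rw [d, c]
    exact fun _ _ => ⟨rfl, rfl⟩
  · exact fun h => absurd b h

lemma pp_const {x : C.Pt} (h : C.idx x.1 = none) : C.pp x.1 = fun _ => C.rk x.1 := by
  funext j
  rw [rk, kk_none h]
  exact (((valid_iff x.1).mp x.2).2.2.2.2.1 h j).1

lemma V_cap (x : C.Pt) (n : ℕ) :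
    (S.lab (fun x : C.Pt => C.st x.1) (fun x : C.Pt => C.rk x.1) {w | w.1 ∈ C.V x.1} n).card ≤
      S.capP (C.rk x.1) n := by
  rw [← lab_image]
  refine (Finset.card_le_card (Scale.lab_mono ?_ n)).trans
    (((valid_iff x.1).mp x.2).2.2.2.1 (C.kk x.1) n)
  rintro _ ⟨w, hw, rfl⟩
  exact hw

lemma V_upper (x : C.Pt) : IsUpperSet {w : C.Pt | w.1 ∈ C.V x.1} :=
  fun _ b hab ha => ((valid_iff x.1).mp x.2).2.1 _ _ ha _ b.2 hab

lemma V_rk (x w : C.Pt) (h : w.1 ∈ C.V x.1) : C.rk x.1 < C.rk w.1 :=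
  ((valid_iff x.1).mp x.2).2.2.1 _ _ h

lemma dcpo (D : Set C.Pt) (hne : D.Nonempty) (hdir : DirectedOn (· ≤ ·) D) :
    ∃ s, IsLUB D s ∧ ∀ r < C.rk s.1, ∃ d ∈ D, r < C.rk d.1 := by
  obtain ⟨d₀, hd₀, hmin⟩ := (InvImage.wf (fun x : C.Pt => C.st x.1) wellFounded_lt).has_min D hne
  have hblk : ∀ d ∈ D, d₀ ≤ d → C.blk d₀.1 d.1 := fun d hd h => blk_of_le h (hmin d hd)
  have hcof : ∀ d ∈ D, ∃ e ∈ D, d ≤ e ∧ d₀ ≤ e := fun d hd => hdir d hd d₀ hd₀
  by_cases hz : C.idx d₀.1 = none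
  · have hZ : ∀ d ∈ D, d₀ ≤ d → C.idx d.1 = none := by
      intro d hd h
      rcases (hblk d hd h).2.2 with h1 | h1
      · exact h1.2.1
      · exact absurd hz h1.1
    let U : Set C.Pt := {w | ∀ d ∈ D, d₀ ≤ d → w.1 ∈ C.V d.1}
    have hU0 : U ⊆ {w | w.1 ∈ C.V d₀.1} := fun w hw => hw d₀ hd₀ le_rfl
    obtain ⟨z, a, b, c, e⟩ := z_exists U (C.rk d₀.1) (C.st d₀.1)
      (fun x y hxy hx d hd h => V_upper d hxy (hx d hd h))
      (fun w hw => ⟨C.lt _ _ _ (hU0 hw), V_rk d₀ w (hU0 hw)⟩)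
      (fun n => (Finset.card_le_card (Scale.lab_mono hU0 n)).trans (V_cap d₀ n))
    refine ⟨z, ⟨fun d hd => ?_, fun w hw => ?_⟩, fun r hr => ⟨d₀, hd₀, ?_⟩⟩
    · obtain ⟨e', he, h1, h2⟩ := hcof d hd
      refine h1.trans (Or.inr ⟨b.trans (hblk e' he h2).1.symm, ?_,
        Or.inl ⟨hZ e' he h2, a, ?_⟩⟩)
      · rw [c, (hblk e' he h2).2.1, pp_const hz]
      · rw [e]
        rintro _ ⟨w, hw, rfl⟩
        exact hw e' he h2
    · by_cases hs : C.st w.1 < C.st d₀.1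
      · left
        rw [e, mem_image_val]
        intro d hd h
        exact mem_of_le (hw hd) ((hblk d hd h).1 ▸ hs)
      · have h1 : ∀ d ∈ D, d₀ ≤ d → C.blk d.1 w.1 :=
          fun d hd h => blk_of_le (hw hd) ((hblk d hd h).1 ▸ hs)
        have h2 := h1 d₀ hd₀ le_rfl
        have h3 : C.idx w.1 = none := by
          rcases h2.2.2 with h3 | h3
          · exact h3.2.1
          · exact absurd hz h3.1
        refine Or.inr ⟨h2.1.trans b.symm, ?_, Or.inl ⟨a, h3, ?_⟩⟩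
        · rw [c, h2.2.1, pp_const hz]
        · intro v hv
          rw [e]
          exact ⟨⟨v, ((valid_iff w.1).mp w.2).1 _ v hv⟩,
            fun d hd h => blk_V d.2 (h1 d hd h) hv, rfl⟩
    · rwa [rk, c] at hr
  · have hY : ∀ d ∈ D, d₀ ≤ d → C.idx d.1 ≠ none ∧ C.VV d.1 = C.VV d₀.1 := by
      intro d hd h
      rcases (hblk d hd h).2.2 with h1 | h1
      · exact absurd h1.1 hz
      · exact ⟨h1.2.1, h1.2.2.2⟩
    by_cases hb : ∀ k, ∃ d ∈ D, d₀ ≤ d ∧ k ≤ C.kk d.1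
    · obtain ⟨h1, -, h2, u, h3, h4, h5⟩ := ((valid_iff d₀.1).mp d₀.2).2.2.2.2.2 hz
      refine ⟨⟨u, ((valid_iff d₀.1).mp d₀.2).1 0 u (h3 0)⟩, ⟨fun d hd => ?_, fun w hw => ?_⟩,
        fun r hr => ?_⟩
      · obtain ⟨e, he, h6, h7⟩ := hcof d hd
        refine h6.trans (Or.inl ?_)
        rw [V, (hY e he h7).2]
        exact h3 _
      · apply h4
        intro j
        by_cases hs : C.st w.1 < C.st d₀.1
        · obtain ⟨d, hd, h6, h7⟩ := hb j
          have h8 := mem_of_le (hw hd) ((hblk d hd h6).1 ▸ hs)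
          rw [V, (hY d hd h6).2] at h8
          exact h2 h7 h8
        · exfalso
          obtain ⟨d, hd, h6, h7⟩ := hb (C.kk w.1 + 1)
          rcases (blk_of_le (hw hd) ((hblk d hd h6).1 ▸ hs)).2.2 with h8 | h8
          · exact (hY d hd h6).1 h8.1
          · have := h8.2.2.1
            omega
      · obtain ⟨j, hj⟩ := h5 r hr
        obtain ⟨d, hd, h6, h7⟩ := hb j
        refine ⟨d, hd, hj.trans_le ?_⟩
        rw [rk, (hblk d hd h6).2.1]
        exact h1.monotone h7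
    · push Not at hb
      obtain ⟨k, hk⟩ := hb
      obtain ⟨m, ⟨hm1, hm2⟩, hm3⟩ := (InvImage.wf (fun x : C.Pt => k - C.kk x.1)
        wellFounded_lt).has_min {d | d ∈ D ∧ d₀ ≤ d} ⟨d₀, hd₀, le_rfl⟩
      refine ⟨m, ⟨fun d hd => ?_, fun w hw => hw hm1⟩, fun r hr => ⟨m, hm1, hr⟩⟩
      obtain ⟨e, he, h1, h2⟩ := hcof d hd
      refine h1.trans (Or.inr ⟨(hblk m hm1 hm2).1.trans (hblk e he h2).1.symm,
        (hblk m hm1 hm2).2.1.trans (hblk e he h2).2.1.symm,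
        Or.inr ⟨(hY e he h2).1, (hY m hm1 hm2).1, ?_,
          (hY m hm1 hm2).2.trans (hY e he h2).2.symm⟩⟩)
      have h3 : ¬ k - C.kk e.1 < k - C.kk m.1 := hm3 e ⟨he, h2⟩
      have h4 := hk e he h2
      have h5 := hk m hm1 hm2
      omega

lemma y_exists (W : ℕ → Set C.Pt) (p : ℕ → ℚ) (γ : S.I) (u : C.Pt) (h1 : StrictMono p)
    (h2 : Monotone (fun j => en (p j))) (h3 : Antitone W) (h4 : ∀ j, IsUpperSet (W j))
    (h5 : ∀ j, ∀ w ∈ W j, C.st w.1 < γ ∧ p j < C.rk w.1)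
    (h6 : ∀ j n, (S.lab (fun x : C.Pt => C.st x.1) (fun x : C.Pt => C.rk x.1) (W j) n).card ≤
      S.capP (p j) n)
    (h7 : ∀ j, u ∈ W j) (h8 : ∀ w, (∀ j, w ∈ W j) → u ≤ w) (h9 : ∀ r < C.rk u.1, ∃ j, r < p j) :
    ∃ y : ℕ → C.Pt, Monotone y ∧ IsLUB (range y) u ∧
      ∀ k, {w : C.Pt | w.1 ∈ C.V (y k).1} = W k := by
  choose t a b c d using fun k => C.surj γ (some k) p (fun j => Subtype.val '' W j) (by
    rintro j _ ⟨w, hw, rfl⟩
    exact (h5 j w hw).1)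
  have hv : ∀ k, C.valid (t k) := by
    intro k
    refine (valid_iff _).mpr ⟨?_, ?_, ?_, ?_, ?_, ?_⟩
    · rw [d]
      rintro j _ ⟨w, -, rfl⟩
      exact w.2
    · rw [d]
      rintro j _ ⟨v, hv, rfl⟩ w hw hvw
      exact ⟨⟨w, hw⟩, h4 j (a := v) (b := ⟨w, hw⟩) hvw hv, rfl⟩
    · rw [d, c]
      rintro j _ ⟨w, hw, rfl⟩
      exact (h5 j w hw).2
    · rw [d, c]
      intro j n
      rw [lab_image]
      exact h6 j n
    · intro h
      rw [b] at h
      exact absurd h (by simp)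
    · intro _
      rw [d, c]
      refine ⟨h1, h2, fun i j hij => image_mono (h3 hij), u.1, fun j => ⟨u, h7 j, rfl⟩, ?_, h9⟩
      intro w hw
      obtain ⟨w', -, rfl⟩ := hw 0
      exact h8 w' fun j => mem_image_val.mp (hw j)
  have hV : ∀ k, C.V (t k) = Subtype.val '' W k := by
    intro k
    rw [V, kk_some (b k), d]
  have hne : ∀ k, C.idx (t k) ≠ none := fun k => by rw [b]; simp
  refine ⟨fun k => ⟨t k, hv k⟩, fun i j hij => ?_, ⟨?_, fun w hw => ?_⟩, fun k => ?_⟩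
  · refine Or.inr ⟨(a j).trans (a i).symm, (c j).trans (c i).symm,
      Or.inr ⟨hne i, hne j, ?_, (d j).trans (d i).symm⟩⟩
    rw [kk_some (b i), kk_some (b j)]
    exact hij
  · rintro _ ⟨k, rfl⟩
    left
    rw [hV]
    exact ⟨u, h7 k, rfl⟩
  · have hw' : ∀ k, C.le (t k) w.1 := fun k => hw ⟨k, rfl⟩
    apply h8
    intro j
    by_cases hs : C.st w.1 < γ
    · have := mem_of_le (hw' j) ((a j).symm ▸ hs)
      rwa [hV, mem_image_val] at this
    · exfalso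
      rcases (blk_of_le (hw' (C.kk w.1 + 1)) ((a _).symm ▸ hs)).2.2 with h | h
      · exact hne _ h.1
      · have := h.2.2.1
        rw [kk_some (b _)] at this
        omega
  · ext w
    simp only [mem_ofPred_eq, hV, mem_image_val]

variable (C) in
/-- the model -/
def model : Model S where
  X := C.Pt
  st x := C.st x.1
  rk x := C.rk x.1
  V x := {w | w.1 ∈ C.V x.1}
  isZ x := C.idx x.1 = none
  V_le _ _ h := Or.inl h
  V_upper := V_upper
  V_st x w h := C.lt x.1 _ w.1 h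
  V_rk := V_rk
  V_cap := V_cap
  le_cases x w h := by
    rcases h with h | h
    · exact Or.inl h
    · refine Or.inr ⟨h.1, (blk_rk x.2 h).1, (blk_rk x.2 h).2, fun v hv => blk_V x.2 h hv,
        fun hz => ?_⟩
      rcases h.2.2 with h1 | h1
      · exact ⟨h1.2.1, by rw [rk, rk, h.2.1, kk_none hz, kk_none h1.2.1]⟩
      · exact absurd hz h1.1
  z_exists U q γ h1 h2 h3 := by
    obtain ⟨z, a, b, c, d⟩ := z_exists U q γ h1 h2 h3
    refine ⟨z, a, b, by rw [rk, c], ?_⟩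
    ext w
    simp only [mem_ofPred_eq, d, mem_image_val]
  z_le x w h1 h2 h3 h4 h5 := by
    refine Or.inr ⟨h3, by rw [pp_const h1, pp_const h2, h4], Or.inl ⟨h1, h2, fun v hv => ?_⟩⟩
    exact h5 (a := ⟨v, ((valid_iff w.1).mp w.2).1 _ v hv⟩) hv
  y_exists := y_exists
  dcpo := dcpo

end Codes

theorem nonempty_model : ∃ S : Scale, Nonempty (Model S) := by
  obtain ⟨S⟩ := exists_scale
  obtain ⟨C⟩ := nonempty_codes S
  exact ⟨S, ⟨C.model⟩⟩

end Pool.Agent.P.MP_dd23d5_gt
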