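import Pool.Agent.P.MP_dd23d5_gt.Topo

/-!
Local compactness and failure of sobriety of the Scott topology of a model.
-/

namespace Pool.Agent.P.MP_dd23d5_gt

open Filter Set Topology

namespace Model

variable {S : Scale} {M : Model S} [TopologicalSpace M.X] [IsScott M.X univ]

/-- basic open sets -/
def O (F : Finset M.X) (p : ℚ) : Set M.X := {x | p < M.rk x ∧ ∀ f ∈ F, ¬ x ≤ f}

/-- basic compact sets -/
def K (F : Finset M.X) (q : ℚ) : Set M.X :=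
  {x | (q < M.rk x ∨ (M.isZ x ∧ M.rk x = q)) ∧ ∀ f ∈ F, ¬ x ≤ f}

lemma isOpen_rk (p : ℚ) : IsOpen {x : M.X | p < M.rk x} := by
  rw [← isClosed_compl_iff, IsScott.isClosed_iff_isLowerSet_and_dirSupClosed]
  constructor
  · intro a b hab ha hb
    exact ha (lt_of_lt_of_le hb (rk_mono hab))
  · intro d hd hne hdir a ha hp
    obtain ⟨s, hs, hs2⟩ := M.dcpo d hne hdir
    rw [ha.unique hs] at hp
    obtain ⟨x, hx, hx2⟩ := hs2 p hp
    exact hd hx hx2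

lemma isClosed_Iic' (f : M.X) : IsClosed (Iic f) :=
  IsScott.isClosed_iff_isLowerSet_and_dirSupClosed.2 ⟨isLowerSet_Iic _, dirSupClosed_Iic _⟩

lemma isOpen_O (F : Finset M.X) (p : ℚ) : IsOpen (O F p) := by
  have : O F p = {x : M.X | p < M.rk x} ∩ ⋂ f ∈ F, (Iic f)ᶜ := by
    ext x
    simp [O]
  rw [this]
  exact (isOpen_rk p).inter (isOpen_biInter_finset fun f _ => (isClosed_Iic' f).isOpen_compl)

lemma exists_O {U : Set M.X} (hU : IsOpen U) {u : M.X} (hu : u ∈ U) :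
    ∃ (F : Finset M.X) (p : ℚ), u ∈ O F p ∧ O F p ⊆ U := by
  by_contra hcon
  push Not at hcon
  have hc := IsScott.isClosed_iff_isLowerSet_and_dirSupClosed.mp hU.isClosed_compl
  refine mem_of_approx hc.1 hc.2 u (fun p hp F hF => ?_) hu
  obtain ⟨x, hx1, hx2⟩ := not_subset.mp (hcon F p ⟨hp, hF⟩)
  exact ⟨x, hx2, hx1.1, hx1.2⟩

lemma isCompact_K (F : Finset M.X) (q : ℚ) (hF : ∀ f ∈ F, M.rk f ≠ q) : IsCompact (K F q) := by
  classical
  rw [isCompact_iff_ultrafilter_le_nhds']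
  intro 𝒰 hK
  let W : Set M.X := {w | q < M.rk w ∧ Iic w ∈ 𝒰}
  have hWu : IsUpperSet W := fun a b hab ha =>
    ⟨lt_of_lt_of_le ha.1 (rk_mono hab), mem_of_superset ha.2 (Iic_subset_Iic.mpr hab)⟩
  have hhigh : ∀ x w : M.X, M.isZ x → M.rk x = q → x ≤ w → q < M.rk w → w ∈ M.V x := by
    intro x w h1 h2 h3 h4
    rcases M.le_cases x w h3 with h | h
    · exact h
    · exact absurd ((h.2.2.2.2 h1).2.trans h2) h4.ne'
  have hlow : ∀ x ∈ K F q, ∀ w, x ≤ w → ¬ q < M.rk w →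
      IsZ w (M.st x) q (M.V w) ∧ M.V w ⊆ M.V x ∧ M.isZ x ∧ M.rk x = q := by
    intro x hx w hxw hw
    rcases hx.1 with h | ⟨h1, h2⟩
    · exact absurd (lt_of_lt_of_le h (rk_mono hxw)) hw
    · rcases (show IsZ x (M.st x) q (M.V x) from ⟨h1, rfl, h2, rfl⟩).cases hxw with h | h
      · exact absurd (h2 ▸ M.V_rk x w h) hw
      · exact ⟨h.1, h.2, h1, h2⟩
  have hcap : ∀ n, (M.lb W n).card ≤ S.capP q n := by
    intro n
    have hw : ∀ a : M.lb W n, ∃ w ∈ W, a.1 ∈ S.own (M.st w) (M.rk w) n :=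
      fun a => Scale.mem_lab.mp a.2
    choose w hw1 hw2 using hw
    have h1 : (⋂ a, Iic (w a)) ∈ 𝒰 := iInter_mem.mpr fun a => (hw1 a).2
    obtain ⟨x, hx1, hx2⟩ := 𝒰.nonempty_of_mem (inter_mem hK h1)
    have hx3 : ∀ a, x ≤ w a := mem_iInter.mp hx2
    rcases hx1.1 with h | ⟨h, h'⟩
    · refine (Finset.card_le_card (t := M.lb (Ici x) n) fun a ha => ?_).trans
        ((card_lb_Ici x n).trans (S.cap_le_capP h n))
      exact Scale.mem_lab.mpr ⟨w ⟨a, ha⟩, hx3 _, hw2 ⟨a, ha⟩⟩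
    · refine (Finset.card_le_card (t := M.lb (M.V x) n) fun a ha => ?_).trans
        (h' ▸ M.V_cap x n)
      exact Scale.mem_lab.mpr ⟨w ⟨a, ha⟩, hhigh x _ h h' (hx3 _) (hw1 _).1, hw2 ⟨a, ha⟩⟩
  have key : ∃ γ, (∀ w ∈ W, M.st w < γ) ∧
      ∀ f, Iic f ∈ 𝒰 → f ∈ W ∨ (IsZ f γ q (M.V f) ∧ M.V f ⊆ W) := by
    by_cases hex : ∃ f, Iic f ∈ 𝒰 ∧ ¬ q < M.rk f
    · obtain ⟨g, hg1, hg2⟩ := hex
      refine ⟨M.st g, fun w hw => ?_, fun f hf => ?_⟩
      · obtain ⟨x, ⟨hx1, hx2⟩, hx3⟩ := 𝒰.nonempty_of_mem (inter_mem (inter_mem hK hg1) hw.2)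
        obtain ⟨h1, -, h3, h4⟩ := hlow x hx1 g hx2 hg2
        rw [h1.2.1]
        exact M.V_st x w (hhigh x w h3 h4 hx3 hw.1)
      · by_cases hq : q < M.rk f
        · exact Or.inl ⟨hq, hf⟩
        · right
          obtain ⟨x, ⟨hx1, hx2⟩, hx3⟩ := 𝒰.nonempty_of_mem (inter_mem (inter_mem hK hg1) hf)
          obtain ⟨h1, -⟩ := hlow x hx1 g hx2 hg2
          obtain ⟨h2, -⟩ := hlow x hx1 f hx3 hq
          refine ⟨h1.2.1 ▸ h2, fun w hw => ⟨h2.2.2.1 ▸ M.V_rk f w hw, ?_⟩⟩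
          exact mem_of_superset hf (Iic_subset_Iic.mpr (M.V_le f w hw))
    · push Not at hex
      obtain ⟨γ, hγ⟩ := Scale.stage_bound _ q fun n => (hcap n).trans (S.capP_le_cap q n)
      exact ⟨γ, fun w hw => hγ _ (M.rk w) fun n a ha => Scale.mem_lab.mpr ⟨w, hw, ha⟩,
        fun f hf => Or.inl ⟨hex f hf, hf⟩⟩
  obtain ⟨γ, hγ1, hγ2⟩ := key
  obtain ⟨z, hz⟩ := (show M.Adm W q γ from ⟨hWu, fun w hw => ⟨hγ1 w hw, hw.1⟩, hcap⟩).exists_z
  refine ⟨z, ⟨Or.inr ⟨hz.1, hz.2.2.1⟩, fun f hf hzf => ?_⟩, ?_⟩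
  · rcases hz.cases hzf with h | h
    · obtain ⟨x, hx1, hx2⟩ := 𝒰.nonempty_of_mem (inter_mem hK h.2)
      exact hx1.2 f hf hx2
    · exact hF f hf h.1.2.2.1
  · intro U hU
    obtain ⟨U', hU1, hU2, hU3⟩ := mem_nhds_iff.mp hU
    obtain ⟨G, p, h1, h2⟩ := exists_O hU2 hU3
    have h3 : (⋂ f ∈ G, (Iic f)ᶜ) ∈ 𝒰 := by
      refine (biInter_finset_mem G).mpr fun f hf => Ultrafilter.compl_mem_iff_notMem.mpr ?_
      intro hf'
      apply h1.2 f hf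
      rcases hγ2 f hf' with h | h
      · exact hz.le_of_mem h
      · exact hz.le_of_subset h.1 h.2
    refine mem_of_superset (inter_mem hK h3) fun x hx => hU1 (h2 ⟨?_, fun f hf => ?_⟩)
    · have h4 : p < q := hz.2.2.1 ▸ h1.1
      rcases hx.1.1 with h | h
      · exact h4.trans h
      · exact h.2 ▸ h4
    · exact mem_iInter₂.mp hx.2 f hf

theorem locallyCompact : LocallyCompactSpace M.X := by
  refine ⟨fun x U hU => ?_⟩
  obtain ⟨U', hU1, hU2, hU3⟩ := mem_nhds_iff.mp hU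
  obtain ⟨F, p, h1, h2⟩ := exists_O hU2 hU3
  obtain ⟨q, hq1, hq2⟩ := (Set.Ioo_infinite h1.1).exists_notMem_finite
    ((F.finite_toSet).image M.rk)
  refine ⟨K F q, ?_, fun y hy => hU1 (h2 ⟨?_, hy.2⟩), isCompact_K F q fun f hf h => ?_⟩
  · exact mem_of_superset ((isOpen_O F q).mem_nhds ⟨hq1.2, h1.2⟩)
      fun y hy => ⟨Or.inl hy.1, hy.2⟩
  · rcases hy.1 with h | h
    · exact hq1.1.trans h
    · exact h.2 ▸ hq1.1
  · exact hq2 ⟨f, hf, h⟩

omit [TopologicalSpace M.X] [IsScott M.X univ] in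
lemma exists_rk (q : ℚ) : ∃ z : M.X, M.rk z = q := by
  obtain ⟨γ⟩ := S.ne
  obtain ⟨z, hz⟩ := (show M.Adm ∅ q γ from ⟨isUpperSet_empty, by simp, fun n => by
    have : M.lb ∅ n = ∅ := by
      ext a
      simp [Scale.mem_lab]
    rw [this]
    exact Nat.zero_le _⟩).exists_z
  exact ⟨z, hz.2.2.1⟩

omit [TopologicalSpace M.X] [IsScott M.X univ] in
lemma eventually_O (F : Finset M.X) (p : ℚ) : ∀ᶠ q in atTop, ∀ z : M.X, M.rk z = q → z ∈ O F p := by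
  have h1 : ∀ᶠ q in atTop, ∀ f ∈ F, M.rk f < q :=
    (eventually_all_finset F).mpr fun f _ => eventually_gt_atTop _
  filter_upwards [h1, eventually_gt_atTop p] with q h2 h3 z hz
  refine ⟨hz ▸ h3, fun f hf hzf => ?_⟩
  exact absurd (hz ▸ rk_mono hzf) (not_le.mpr (h2 f hf))

theorem not_quasiSober : ¬ QuasiSober M.X := by
  intro h
  have hirr : IsIrreducible (univ : Set M.X) := by
    refine ⟨⟨(exists_rk (M := M) 0).choose, trivial⟩, ?_⟩
    rintro U V hU hV ⟨u, -, hu⟩ ⟨v, -, hv⟩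
    obtain ⟨F, p, -, h1⟩ := exists_O hU hu
    obtain ⟨G, p', -, h2⟩ := exists_O hV hv
    obtain ⟨q, h3, h4⟩ := ((eventually_O F p).and (eventually_O G p')).exists
    obtain ⟨z, hz⟩ := exists_rk (M := M) q
    exact ⟨z, trivial, h1 (h3 z hz), h2 (h4 z hz)⟩
  obtain ⟨x, hx⟩ := h.sober hirr isClosed_univ
  obtain ⟨z, hz⟩ := exists_rk (M := M) (M.rk x + 1)
  have h1 : z ∈ closure {x} := by rw [hx.def]; trivial
  rw [IsScott.closure_singleton] at h1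
  have := rk_mono (M := M) h1
  linarith

end Model

end Pool.Agent.P.MP_dd23d5_gt
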