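import Pool.Agent.P.MP_dd23d5_gt.Scale

/-!
Capacities, labels and the abstract description of the poset.
-/

namespace Pool.Agent.P.MP_dd23d5_gt

open Filter

/-- an injective numbering of the rationals -/
def en (q : ℚ) : ℕ := Encodable.encode q

lemma en_injective : Function.Injective en := Encodable.encode_injective

/-- rationals with number below `n` -/
noncomputable def small (n : ℕ) : Finset ℚ := (Finset.range n).preimage en en_injective.injOn

lemma mem_small {q : ℚ} {n : ℕ} : q ∈ small n ↔ en q < n := by simp [small]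

lemma card_small (n : ℕ) : (small n).card ≤ n := by
  have := Finset.card_le_card_of_injOn (s := small n) (t := Finset.range n) en
    (fun q hq => by simpa using mem_small.mp hq) en_injective.injOn
  simpa using this

namespace Scale

variable (S : Scale)

/-- capacity of a point of rank `r` -/
noncomputable def cap (r : ℚ) (n : ℕ) : ℕ :=
  S.base n * (n + 2) ^ ((small n).filter (fun q => r ≤ q)).card

/-- capacity of sets of points of rank larger than `r` -/
noncomputable def capP (r : ℚ) (n : ℕ) : ℕ :=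
  S.base n * (n + 2) ^ ((small n).filter (fun q => r < q)).card

lemma capP_le_cap (r : ℚ) (n : ℕ) : S.capP r n ≤ S.cap r n := by
  apply Nat.mul_le_mul_left
  apply Nat.pow_le_pow_right (by omega)
  apply Finset.card_le_card
  intro q
  simp only [Finset.mem_filter]
  exact fun h => ⟨h.1, h.2.le⟩

lemma cap_le_capP {p r : ℚ} (h : p < r) (n : ℕ) : S.cap r n ≤ S.capP p n := by
  apply Nat.mul_le_mul_left
  apply Nat.pow_le_pow_right (by omega)
  apply Finset.card_le_card
  intro q
  simp only [Finset.mem_filter]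
  exact fun h' => ⟨h'.1, lt_of_lt_of_le h h'.2⟩

lemma capP_anti {p r : ℚ} (h : p ≤ r) (n : ℕ) : S.capP r n ≤ S.capP p n := by
  rcases h.eq_or_lt with rfl | h
  · exact le_rfl
  · exact (S.capP_le_cap r n).trans (S.cap_le_capP h n)

lemma cap_eq {r : ℚ} {n : ℕ} (h : en r < n) : S.cap r n = (n + 2) * S.capP r n := by
  have : (small n).filter (fun q => r ≤ q) = insert r ((small n).filter (fun q => r < q)) := by
    ext q
    simp only [Finset.mem_filter, Finset.mem_insert]
    constructor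
    · rintro ⟨h1, h2⟩
      rcases h2.eq_or_lt with h2 | h2
      · exact Or.inl h2.symm
      · exact Or.inr ⟨h1, h2⟩
    · rintro (rfl | ⟨h1, h2⟩)
      · exact ⟨mem_small.mpr h, le_rfl⟩
      · exact ⟨h1, h2.le⟩
  rw [cap, capP, this, Finset.card_insert_of_notMem (by simp), pow_succ]
  ring

lemma base_le_capP (r : ℚ) (n : ℕ) : S.base n ≤ S.capP r n :=
  Nat.le_mul_of_pos_right _ (by positivity)

lemma cap_le_top (r : ℚ) (n : ℕ) : S.cap r n ≤ S.base n * (n + 2) ^ n := by
  apply Nat.mul_le_mul_left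
  apply Nat.pow_le_pow_right (by omega)
  exact (Finset.card_filter_le _ _).trans (card_small n)

/-- the label that a point of stage `γ` and rank `q` carries itself -/
def own (γ : S.I) (q : ℚ) (n : ℕ) : Finset (Fin (S.M n)) := if en q < n then S.B γ n else ∅

lemma own_mono (γ : S.I) {p q : ℚ} (h : en p ≤ en q) (n : ℕ) : S.own γ q n ⊆ S.own γ p n := by
  unfold own
  by_cases h1 : en q < n
  · rw [if_pos h1, if_pos (lt_of_le_of_lt h h1)]
  · rw [if_neg h1]; exact Finset.empty_subset _

/-- adding an own label to a set of capacity `capP q` stays within capacity `cap q` -/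
lemma card_union_own {q : ℚ} {n : ℕ} (γ : S.I) (L : Finset (Fin (S.M n)))
    (h : L.card ≤ S.capP q n) : (L ∪ S.own γ q n).card ≤ S.cap q n := by
  unfold own
  by_cases h1 : en q < n
  · rw [if_pos h1, S.cap_eq h1]
    have h2 := Finset.card_union_le L (S.B γ n)
    have h3 := (S.card_B γ n).trans (S.base_le_capP q n)
    nlinarith
  · rw [if_neg h1, Finset.union_empty]
    exact h.trans (S.capP_le_cap q n)

open Classical in
/-- the label of a set of points -/
noncomputable def lab {X : Type} (st : X → S.I) (rk : X → ℚ) (V : Set X) (n : ℕ) :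
    Finset (Fin (S.M n)) :=
  Finset.univ.filter fun a => ∃ w ∈ V, a ∈ S.own (st w) (rk w) n

variable {S}

lemma mem_lab {X : Type} {st : X → S.I} {rk : X → ℚ} {V : Set X} {n : ℕ} {a : Fin (S.M n)} :
    a ∈ S.lab st rk V n ↔ ∃ w ∈ V, a ∈ S.own (st w) (rk w) n := by
  simp [lab]

lemma lab_mono {X : Type} {st : X → S.I} {rk : X → ℚ} {V W : Set X} (h : V ⊆ W) (n : ℕ) :
    S.lab st rk V n ⊆ S.lab st rk W n := by
  intro a ha
  obtain ⟨w, hw, ha⟩ := mem_lab.mp ha
  exact mem_lab.mpr ⟨w, h hw, ha⟩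

/-- points whose own labels lie in a slalom of bounded size have bounded stage -/
lemma stage_bound (L : (n : ℕ) → Finset (Fin (S.M n))) (r : ℚ) (h : ∀ n, (L n).card ≤ S.cap r n) :
    ∃ γ, ∀ β q, (∀ n, S.own β q n ⊆ L n) → β < γ := by
  obtain ⟨γ, hγ⟩ := S.bound L fun n => (h n).trans (S.cap_le_top r n)
  refine ⟨γ, fun β q hβ => hγ β ?_⟩
  filter_upwards [eventually_gt_atTop (en q)] with n hn
  have := hβ n
  rwa [own, if_pos hn] at this

end Scale

/-- The abstract properties of the poset that are used in the topological part. -/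
structure Model (S : Scale) where
  X : Type
  [po : PartialOrder X]
  st : X → S.I
  rk : X → ℚ
  V : X → Set X
  isZ : X → Prop
  V_le : ∀ x, ∀ w ∈ V x, x ≤ w
  V_upper : ∀ x, IsUpperSet (V x)
  V_st : ∀ x, ∀ w ∈ V x, st w < st x
  V_rk : ∀ x, ∀ w ∈ V x, rk x < rk w
  V_cap : ∀ x n, (S.lab st rk (V x) n).card ≤ S.capP (rk x) n
  le_cases : ∀ x w, x ≤ w → w ∈ V x ∨ (st w = st x ∧ rk x ≤ rk w ∧ en (rk x) ≤ en (rk w) ∧
    V w ⊆ V x ∧ (isZ x → isZ w ∧ rk w = rk x))
  z_exists : ∀ (U : Set X) (q : ℚ) (γ : S.I), IsUpperSet U → (∀ w ∈ U, st w < γ ∧ q < rk w) →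
    (∀ n, (S.lab st rk U n).card ≤ S.capP q n) → ∃ z, isZ z ∧ st z = γ ∧ rk z = q ∧ V z = U
  z_le : ∀ x w, isZ x → isZ w → st w = st x → rk w = rk x → V w ⊆ V x → x ≤ w
  y_exists : ∀ (W : ℕ → Set X) (p : ℕ → ℚ) (γ : S.I) (u : X), StrictMono p →
    Monotone (fun j => en (p j)) → Antitone W → (∀ j, IsUpperSet (W j)) →
    (∀ j, ∀ w ∈ W j, st w < γ ∧ p j < rk w) →
    (∀ j n, (S.lab st rk (W j) n).card ≤ S.capP (p j) n) →
    (∀ j, u ∈ W j) → (∀ w, (∀ j, w ∈ W j) → u ≤ w) → (∀ r < rk u, ∃ j, r < p j) →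
    ∃ y : ℕ → X, Monotone y ∧ IsLUB (Set.range y) u ∧ ∀ k, V (y k) = W k
  dcpo : ∀ D : Set X, D.Nonempty → DirectedOn (· ≤ ·) D →
    ∃ s, IsLUB D s ∧ ∀ r < rk s, ∃ d ∈ D, r < rk d

attribute [instance] Model.po

end Pool.Agent.P.MP_dd23d5_gt
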