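import Mathlib

/-!
A scale of slaloms: a well-ordered family of small slaloms such that every slightly larger slalom
almost contains only boundedly many of them.
-/

namespace Pool.Agent.P.MP_dd23d5_gt

open Filter

/-- A well-ordered family of slaloms such that larger slaloms almost contain boundedly many. -/
structure Scale where
  I : Type
  [lo : LinearOrder I]
  [wf : WellFoundedLT I]
  [nm : NoMaxOrder I]
  [ne : Nonempty I]
  M : ℕ → ℕ
  base : ℕ → ℕ
  B : I → (n : ℕ) → Finset (Fin (M n))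
  card_B : ∀ β n, (B β n).card ≤ base n
  bound : ∀ L : (n : ℕ) → Finset (Fin (M n)), (∀ n, (L n).card ≤ base n * (n + 2) ^ n) →
    ∃ γ, ∀ β, (∀ᶠ n in atTop, B β n ⊆ L n) → β < γ

attribute [instance] Scale.lo Scale.wf Scale.nm Scale.ne

/-- a copy of a type without any order instance -/
structure Wr (α : Type) where
  val : α

/-- growth factor between consecutive levels -/
def HH (n : ℕ) : ℕ := 2 * (n + 2) ^ n

/-- size of the slaloms of level `i` -/
def level (i n : ℕ) : ℕ := HH n ^ (n - i)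

/-- size of the coordinate sets -/
def MM (n : ℕ) : ℕ := HH n ^ n + 1

lemma HH_pos (n : ℕ) : 1 ≤ HH n := by
  unfold HH
  have : 1 ≤ (n + 2) ^ n := Nat.one_le_pow _ _ (by omega)
  omega

lemma level_pos (i n : ℕ) : 1 ≤ level i n := Nat.one_le_pow _ _ (HH_pos n)

lemma level_succ_le (i n : ℕ) : level (i + 1) n ≤ level i n :=
  Nat.pow_le_pow_right (HH_pos n) (by omega)

lemma level_lt (i n : ℕ) : level i n < MM n :=
  Nat.lt_succ_of_le (Nat.pow_le_pow_right (HH_pos n) (by omega))

lemma level_eq (i n : ℕ) (h : i < n) : level i n = level (i + 1) n * HH n := by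
  unfold level
  rw [← pow_succ]
  congr 1
  omega

/-- `S` is captured, up to finitely many coordinates, by a slalom of level `i` -/
def Capt (i : ℕ) (S : Set (Wr ((n : ℕ) → Fin (MM n)))) : Prop :=
  ∃ L : (n : ℕ) → Finset (Fin (MM n)), (∀ᶠ n in atTop, (L n).card ≤ level i n) ∧
    ∀ f ∈ S, ∀ᶠ n in atTop, f.val n ∈ L n

lemma Capt.of_succ {i : ℕ} {S} (h : Capt (i + 1) S) : Capt i S := by
  obtain ⟨L, h1, h2⟩ := h
  exact ⟨L, h1.mono fun n hn => hn.trans (level_succ_le i n), h2⟩

lemma Capt.everywhere {i : ℕ} {S} (h : Capt i S) :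
    ∃ L : (n : ℕ) → Finset (Fin (MM n)), (∀ n, (L n).card ≤ level i n) ∧
      ∀ f ∈ S, ∀ᶠ n in atTop, f.val n ∈ L n := by
  classical
  obtain ⟨L, h1, h2⟩ := h
  refine ⟨fun n => if (L n).card ≤ level i n then L n else ∅, fun n => ?_, fun f hf => ?_⟩
  · by_cases h : (L n).card ≤ level i n <;> simp [h]
  · filter_upwards [h1, h2 f hf] with n h3 h4
    simpa [h3] using h4

lemma not_capt_univ (i : ℕ) : ¬ Capt i Set.univ := by
  intro h
  obtain ⟨L, h1, h2⟩ := h.everywhere
  have : ∀ n, ∃ a : Fin (MM n), a ∉ L n := by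
    intro n
    by_contra hcon
    push Not at hcon
    have : L n = Finset.univ := Finset.eq_univ_of_forall hcon
    have h3 := h1 n
    rw [this, Finset.card_univ, Fintype.card_fin] at h3
    exact absurd (level_lt i n) (not_lt.mpr h3)
  choose f hf using this
  obtain ⟨n, hn⟩ := (h2 ⟨f⟩ trivial).exists
  exact hf n hn

theorem exists_scale : Nonempty Scale := by
  classical
  set R := Wr ((n : ℕ) → Fin (MM n)) with hR
  obtain ⟨lo, wf⟩ := exists_wellFoundedLT R
  let seg : WithTop R → Set R := fun b => {f | (f : WithTop R) < b}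
  have hN : ∀ i, {b : WithTop R | ¬ Capt i (seg b)}.Nonempty := by
    intro i
    refine ⟨⊤, ?_⟩
    have : seg ⊤ = Set.univ := by
      ext f; simp [seg]
    simp only [Set.mem_ofPred_eq, this]
    exact not_capt_univ i
  have hmin : ∀ i, ∃ b, ¬ Capt i (seg b) ∧ ∀ c, c < b → Capt i (seg c) := by
    intro i
    obtain ⟨b, hb, hb2⟩ := (wellFounded_lt (α := WithTop R)).has_min _ (hN i)
    refine ⟨b, hb, fun c hc => ?_⟩
    by_contra hcon
    exact hb2 c hcon hc
  choose b hb1 hb2 using hmin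
  obtain ⟨_, ⟨i, rfl⟩, hi⟩ := (wellFounded_lt (α := WithTop R)).has_min (Set.range b) ⟨_, 0, rfl⟩
  have hle : b i ≤ b (i + 1) := not_lt.mp (hi _ ⟨i + 1, rfl⟩)
  have hcap : ∀ β : seg (b i), Capt (i + 1) (seg (β.1 : WithTop R)) :=
    fun β => hb2 _ _ (lt_of_lt_of_le β.2 hle)
  choose B hB1 hB2 using fun β => (hcap β).everywhere
  have hne : Nonempty (seg (b i)) := by
    by_contra hcon
    apply hb1 i
    refine ⟨fun _ => ∅, by simp, fun f hf => absurd ⟨⟨f, hf⟩⟩ hcon⟩
  have hnm : NoMaxOrder (seg (b i)) := by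
    refine ⟨fun m => ?_⟩
    by_contra hcon
    push Not at hcon
    apply hb1 i
    refine ⟨fun n => insert (m.1.val n) (B m n), ?_, fun f hf => ?_⟩
    · filter_upwards [eventually_gt_atTop i] with n hn
      have h1 := Finset.card_insert_le (m.1.val n) (B m n)
      have h2 := hB1 m n
      have h3 := level_pos (i + 1) n
      have h4 : 1 ≤ (n + 2) ^ n := Nat.one_le_pow _ _ (by omega)
      rw [level_eq i n hn, HH]
      nlinarith
    · rcases (hcon ⟨f, hf⟩).eq_or_lt with h | h
      · have : f = m.1 := congrArg Subtype.val h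
        subst this
        exact Eventually.of_forall fun n => Finset.mem_insert_self _ _
      · have h' : f ∈ seg (m.1 : WithTop R) := WithTop.coe_lt_coe.mpr h
        exact (hB2 m f h').mono fun n hn => Finset.mem_insert_of_mem hn
  refine ⟨{ I := seg (b i), M := MM, base := level (i + 1), B := B, card_B := hB1, bound := ?_ }⟩
  intro L hL
  by_contra hcon
  push Not at hcon
  apply hb1 i
  refine ⟨L, ?_, fun f hf => ?_⟩
  · filter_upwards [eventually_gt_atTop i] with n hn
    refine (hL n).trans ?_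
    rw [level_eq i n hn, HH]
    exact Nat.mul_le_mul_left _ (by omega)
  · obtain ⟨γ, hγ⟩ := exists_gt (⟨f, hf⟩ : seg (b i))
    obtain ⟨β, h1, h2⟩ := hcon γ
    have h' : f ∈ seg (β.1 : WithTop R) := WithTop.coe_lt_coe.mpr (lt_of_lt_of_le hγ h2)
    filter_upwards [h1, hB2 β f h'] with n h3 h4
    exact h3 h4

/-- Codes: a type stratified by a well-order in which each stage consists of all data together with
a sequence of sets of elements of earlier stages. -/
theorem exists_codes (I : Type) [LinearOrder I] [WellFoundedLT I] (D : Type) :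
    ∃ (T : Type) (st : T → I) (dt : T → D) (VV : T → ℕ → Set T),
      (∀ t j, ∀ v ∈ VV t j, st v < st t) ∧
      (∀ s t, st s = st t → dt s = dt t → VV s = VV t → s = t) ∧
      (∀ (γ : I) (d : D) (V : ℕ → Set T), (∀ j, ∀ v ∈ V j, st v < γ) →
        ∃ t, st t = γ ∧ dt t = d ∧ VV t = V) := by
  let Lev : I → Type := WellFounded.fix (C := fun _ => Type) wellFounded_lt
    (fun γ rec => D × (ℕ → Set (Σ β : {β // β < γ}, rec β.1 β.2)))
  have hLev : ∀ γ, Lev γ = (D × (ℕ → Set (Σ β : {β // β < γ}, Lev β.1))) := fun γ =>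
    WellFounded.fix_eq _ _ γ
  let e : ∀ γ, Lev γ ≃ (D × (ℕ → Set (Σ β : {β // β < γ}, Lev β.1))) :=
    fun γ => Equiv.cast (hLev γ)
  let emb : ∀ γ, (Σ β : {β // β < γ}, Lev β.1) → (Σ β, Lev β) := fun γ s => ⟨s.1.1, s.2⟩
  have hemb : ∀ γ, Function.Injective (emb γ) := by
    rintro γ ⟨⟨a, ha⟩, x⟩ ⟨⟨b, hb⟩, y⟩ h
    simp only [emb, Sigma.mk.injEq] at h
    obtain ⟨rfl, h⟩ := h
    cases h
    rfl
  refine ⟨Σ β, Lev β, fun t => t.1, fun t => (e t.1 t.2).1,
    fun t j => emb t.1 '' (e t.1 t.2).2 j, ?_, ?_, ?_⟩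
  · rintro t j v ⟨s, _, rfl⟩
    exact s.1.2
  · rintro ⟨a, x⟩ ⟨b, y⟩ h1 h2 h3
    dsimp only at h1
    subst h1
    congr 1
    apply (e a).injective
    refine Prod.ext h2 ?_
    funext j
    exact (hemb a).image_injective (congrFun h3 j)
  · intro γ d V hV
    refine ⟨⟨γ, (e γ).symm (d, fun j => emb γ ⁻¹' V j)⟩, rfl, by simp, ?_⟩
    funext j
    simp only [Equiv.apply_symm_apply]
    apply Set.image_preimage_eq_of_subset
    intro v hv
    exact ⟨⟨⟨v.1, hV j v hv⟩, v.2⟩, rfl⟩

end Pool.Agent.P.MP_dd23d5_gt
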