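import Pool.Agent.P.MP_dd23d5_gt.Model

/-!
The Scott topology of a model is locally compact and not sober.
-/

namespace Pool.Agent.P.MP_dd23d5_gt

open Filter Set Topology

namespace Model

variable {S : Scale} (M : Model S)

/-- label of a set of points of the model -/
noncomputable abbrev lb (U : Set M.X) (n : ℕ) := S.lab M.st M.rk U n

/-- admissible sets -/
def Adm (U : Set M.X) (q : ℚ) (γ : S.I) : Prop :=
  IsUpperSet U ∧ (∀ w ∈ U, M.st w < γ ∧ q < M.rk w) ∧ ∀ n, (M.lb U n).card ≤ S.capP q n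

variable {M}

lemma rk_mono {x w : M.X} (h : x ≤ w) : M.rk x ≤ M.rk w := by
  rcases M.le_cases x w h with h | h
  · exact (M.V_rk x w h).le
  · exact h.2.1

lemma st_anti {x w : M.X} (h : x ≤ w) : M.st w ≤ M.st x := by
  rcases M.le_cases x w h with h | h
  · exact (M.V_st x w h).le
  · exact h.1.le

lemma lb_Ici (x : M.X) (n : ℕ) : M.lb (Ici x) n ⊆ M.lb (M.V x) n ∪ S.own (M.st x) (M.rk x) n := by
  intro a ha
  obtain ⟨w, hw, ha⟩ := Scale.mem_lab.mp ha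
  rcases M.le_cases x w hw with h | h
  · exact Finset.mem_union_left _ (Scale.mem_lab.mpr ⟨w, h, ha⟩)
  · rw [h.1] at ha
    exact Finset.mem_union_right _ (S.own_mono _ h.2.2.1 n ha)

lemma card_lb_Ici (x : M.X) (n : ℕ) : (M.lb (Ici x) n).card ≤ S.cap (M.rk x) n :=
  (Finset.card_le_card (lb_Ici x n)).trans (S.card_union_own _ _ (M.V_cap x n))

lemma Adm.subset {U W : Set M.X} {q : ℚ} {γ : S.I} (h : M.Adm U q γ) (hW : IsUpperSet W)
    (hWU : W ⊆ U) : M.Adm W q γ :=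
  ⟨hW, fun w hw => h.2.1 w (hWU hw),
    fun n => (Finset.card_le_card (Scale.lab_mono hWU n)).trans (h.2.2 n)⟩

lemma Adm.of_le {U : Set M.X} {p q : ℚ} {γ : S.I} (h : M.Adm U q γ) (hp : p ≤ q) :
    M.Adm U p γ :=
  ⟨h.1, fun w hw => ⟨(h.2.1 w hw).1, lt_of_le_of_lt hp (h.2.1 w hw).2⟩,
    fun n => (h.2.2 n).trans (S.capP_anti hp n)⟩

lemma adm_Ici (u : M.X) {q : ℚ} {γ : S.I} (hq : q < M.rk u) (hγ : M.st u < γ) :
    M.Adm (Ici u) q γ :=
  ⟨isUpperSet_Ici u, fun _ hw => ⟨lt_of_le_of_lt (st_anti hw) hγ, lt_of_lt_of_le hq (rk_mono hw)⟩,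
    fun n => (card_lb_Ici u n).trans (S.cap_le_capP hq n)⟩

/-- `z` is the point of the first kind with data `γ`, `q`, `U` -/
def IsZ (z : M.X) (γ : S.I) (q : ℚ) (U : Set M.X) : Prop :=
  M.isZ z ∧ M.st z = γ ∧ M.rk z = q ∧ M.V z = U

lemma Adm.exists_z {U : Set M.X} {q : ℚ} {γ : S.I} (h : M.Adm U q γ) : ∃ z, IsZ z γ q U :=
  M.z_exists U q γ h.1 h.2.1 h.2.2

lemma IsZ.le_of_mem {z w : M.X} {γ q U} (h : IsZ z γ q U) (hw : w ∈ U) : z ≤ w :=
  M.V_le z w (h.2.2.2 ▸ hw)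

lemma IsZ.le_of_subset {z z' : M.X} {γ q U U'} (h : IsZ z γ q U) (h' : IsZ z' γ q U')
    (hU : U' ⊆ U) : z ≤ z' :=
  M.z_le z z' h.1 h'.1 (h'.2.1.trans h.2.1.symm) (h'.2.2.1.trans h.2.2.1.symm)
    (by rw [h.2.2.2, h'.2.2.2]; exact hU)

lemma IsZ.cases {z w : M.X} {γ q U} (h : IsZ z γ q U) (hw : z ≤ w) :
    w ∈ U ∨ (IsZ w γ q (M.V w) ∧ M.V w ⊆ U) := by
  rcases M.le_cases z w hw with h1 | ⟨h1, -, -, h2, h3⟩
  · exact Or.inl (h.2.2.2 ▸ h1)
  · exact Or.inr ⟨⟨(h3 h.1).1, h1.trans h.2.1, (h3 h.1).2.trans h.2.2.1, rfl⟩, h.2.2.2 ▸ h2⟩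

/-- the set `C` contains the points of the first kind with data `γ`, `q`, `U` -/
def Has (C : Set M.X) (γ : S.I) (q : ℚ) (U : Set M.X) : Prop := ∀ z, IsZ z γ q U → z ∈ C

section closed

variable {C : Set M.X} (hl : IsLowerSet C) (hd : DirSupClosed C)

include hl in
lemma Has.superset {γ q} {U U' : Set M.X} (h : Has C γ q U) (hU : M.Adm U q γ) (hUU : U ⊆ U') :
    Has C γ q U' := by
  intro z hz
  obtain ⟨z', hz'⟩ := hU.exists_z
  exact hl (hz.le_of_subset hz' hUU) (h z' hz')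

include hd in
/-- filtered intersections inside one block -/
lemma has_iInter {ι : Type} [Nonempty ι] {γ q} (U : ι → Set M.X) (hU : ∀ i, M.Adm (U i) q γ)
    (hdir : ∀ i j, ∃ k, U k ⊆ U i ∧ U k ⊆ U j) (h : ∀ i, Has C γ q (U i)) :
    Has C γ q (⋂ i, U i) := by
  intro z hz
  choose f hf using fun i => (hU i).exists_z
  refine hd (d := range f) ?_ (range_nonempty f) ?_ ⟨?_, ?_⟩
  · rintro _ ⟨i, rfl⟩
    exact h i _ (hf i)
  · rintro _ ⟨i, rfl⟩ _ ⟨j, rfl⟩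
    obtain ⟨k, h1, h2⟩ := hdir i j
    exact ⟨f k, ⟨k, rfl⟩, (hf i).le_of_subset (hf k) h1, (hf j).le_of_subset (hf k) h2⟩
  · rintro _ ⟨i, rfl⟩
    exact (hf i).le_of_subset hz (iInter_subset U i)
  · intro w hw
    have hw' : ∀ i, f i ≤ w := fun i => hw ⟨i, rfl⟩
    by_cases hs : M.st w < γ
    · apply hz.le_of_mem
      rw [mem_iInter]
      intro i
      rcases (hf i).cases (hw' i) with h1 | h1
      · exact h1
      · exact absurd h1.1.2.1 hs.ne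
    · have h2 : ∀ i, IsZ w γ q (M.V w) ∧ M.V w ⊆ U i := by
        intro i
        rcases (hf i).cases (hw' i) with h1 | h1
        · exact absurd ((hU i).2.1 w h1).1 hs
        · exact h1
      obtain ⟨i⟩ := ‹Nonempty ι›
      exact hz.le_of_subset (h2 i).1 (subset_iInter fun i => (h2 i).2)

lemma exists_seq (r : ℚ) : ∃ p : ℕ → ℚ, StrictMono p ∧ Monotone (fun j => en (p j)) ∧
    (∀ j, p j < r) ∧ ∀ s < r, ∃ j, s < p j := by
  have step : ∀ (a : {a : ℚ // a < r}) (k : ℕ), ∃ b : {a : ℚ // a < r},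
      a.1 < b.1 ∧ en a.1 ≤ en b.1 ∧ r - 1 / ((k : ℚ) + 1) < b.1 := by
    intro a k
    have h1 : max a.1 (r - 1 / ((k : ℚ) + 1)) < r := by
      apply max_lt a.2
      have : (0 : ℚ) < 1 / ((k : ℚ) + 1) := by positivity
      linarith
    obtain ⟨_, ⟨b, hb, rfl⟩, hb2⟩ :=
      ((Set.Ioo_infinite h1).image en_injective.injOn).exists_gt (en a.1)
    exact ⟨⟨b, hb.2⟩, lt_of_le_of_lt (le_max_left _ _) hb.1, hb2.le,
      lt_of_le_of_lt (le_max_right _ _) hb.1⟩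
  choose g hg1 hg2 hg3 using step
  let f : ℕ → {a : ℚ // a < r} := fun n => Nat.rec ⟨r - 1, by linarith⟩ (fun k a => g a k) n
  refine ⟨fun j => (f j).1, strictMono_nat_of_lt_succ fun n => hg1 _ _,
    monotone_nat_of_le_succ fun n => hg2 _ _, fun j => (f j).2, fun s hs => ?_⟩
  obtain ⟨k, hk⟩ := exists_nat_one_div_lt (sub_pos.mpr hs)
  refine ⟨k + 1, lt_trans ?_ (hg3 (f k) k)⟩
  linarith

include hl hd in
/-- the chains of the second kind -/
lemma mem_of_has (u : M.X) (U : Set M.X) (γ : S.I) (hU : U ⊆ Ici u)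
    (hA : ∀ p < M.rk u, M.Adm U p γ) (hC : ∀ p < M.rk u, Has C γ p U) : u ∈ C := by
  obtain ⟨p, hp1, hp2, hp3, hp4⟩ := exists_seq (M.rk u)
  choose z hz using fun j => (hA (p j) (hp3 j)).exists_z
  obtain ⟨γ', hγ'⟩ := exists_gt (max γ (M.st u))
  let W : ℕ → Set M.X := fun k => Ici u ∪ ⋃ j > k, Ici (z j)
  have hW : ∀ k w, w ∈ W k ↔ u ≤ w ∨ ∃ j > k, z j ≤ w := by
    intro k w
    simp [W]
  suffices hy : ∃ y : ℕ → M.X, Monotone y ∧ IsLUB (range y) u ∧ ∀ k, M.V (y k) = W k by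
    obtain ⟨y, hy1, hy2, hy3⟩ := hy
    refine hd (d := range y) ?_ (range_nonempty y) ?_ hy2
    · rintro _ ⟨k, rfl⟩
      refine hl (M.V_le (y k) (z (k + 1)) ?_) (hC _ (hp3 _) _ (hz (k + 1)))
      rw [hy3, hW]
      exact Or.inr ⟨k + 1, Nat.lt_succ_self k, le_rfl⟩
    · exact directedOn_range.mpr hy1.directed_le
  refine M.y_exists W p γ' u hp1 hp2 ?_ ?_ ?_ ?_ ?_ ?_ hp4
  · intro k k' hk w hw
    rw [hW] at hw ⊢
    rcases hw with hw | ⟨j, hj, hw⟩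
    · exact Or.inl hw
    · exact Or.inr ⟨j, lt_of_le_of_lt hk hj, hw⟩
  · intro k a b hab ha
    rw [hW] at ha ⊢
    rcases ha with ha | ⟨j, hj, ha⟩
    · exact Or.inl (ha.trans hab)
    · exact Or.inr ⟨j, hj, ha.trans hab⟩
  · intro k w hw
    rw [hW] at hw
    rcases hw with hw | ⟨j, hj, hw⟩
    · exact ⟨lt_of_le_of_lt ((st_anti hw).trans (le_max_right _ _)) hγ',
        lt_of_lt_of_le (hp3 k) (rk_mono hw)⟩
    · refine ⟨lt_of_le_of_lt ((st_anti hw).trans ?_) hγ', lt_of_lt_of_le (hp1 hj) ?_⟩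
      · rw [(hz j).2.1]; exact le_max_left _ _
      · rw [← (hz j).2.2.1]; exact rk_mono hw
  · intro k n
    have h1 : M.lb (W k) n ⊆ M.lb (Ici u) n ∪ S.own γ (p (k + 1)) n := by
      intro a ha
      obtain ⟨w, hw, ha⟩ := Scale.mem_lab.mp ha
      rw [hW] at hw
      rcases hw with hw | ⟨j, hj, hw⟩
      · exact Finset.mem_union_left _ (Scale.mem_lab.mpr ⟨w, hw, ha⟩)
      · rcases (hz j).cases hw with h | h
        · exact Finset.mem_union_left _ (Scale.mem_lab.mpr ⟨w, hU h, ha⟩)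
        · rw [h.1.2.1, h.1.2.2.1] at ha
          exact Finset.mem_union_right _ (S.own_mono γ (hp2 (Nat.succ_le_of_lt hj)) n ha)
    refine (Finset.card_le_card h1).trans ((S.card_union_own γ _ ?_).trans
      (S.cap_le_capP (hp1 (Nat.lt_succ_self k)) n))
    exact (card_lb_Ici u n).trans (S.cap_le_capP (hp3 _) n)
  · intro j
    rw [hW]
    exact Or.inl le_rfl
  · intro w hw
    by_contra hcon
    have h1 : ∀ k, ∃ j > k, M.rk w = p j := by
      intro k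
      rcases (hW k w).mp (hw k) with h | ⟨j, hj, h⟩
      · exact absurd h hcon
      · rcases (hz j).cases h with h | h
        · exact absurd (hU h) hcon
        · exact ⟨j, hj, h.1.2.2.1⟩
    obtain ⟨j, -, hj⟩ := h1 0
    obtain ⟨j', hj', hj''⟩ := h1 j
    exact absurd (hj.symm.trans hj'') (hp1 hj').ne

include hl hd in
/-- one fast sequence: a set of bounded stage inside the limit label -/
lemma exists_low (q : ℚ) (L : (n : ℕ) → Finset (Fin (S.M n))) (hL : ∀ n, (L n).card ≤ S.capP q n)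
    (β : S.I)
    (A : Set M.X) (hAC : A ⊆ C) (hAq : ∀ x ∈ A, q < M.rk x)
    (hA : ∀ N, ∃ x ∈ A, ∀ n ≤ N, M.lb (Ici x) n = L n) :
    ∃ U : Set M.X, IsUpperSet U ∧ (∀ w ∈ U, q < M.rk w ∧ (∀ n, S.own (M.st w) (M.rk w) n ⊆ L n) ∧
      ∃ x ∈ A, x ≤ w) ∧ ∀ p ≤ q, Has C β p U := by
  classical
  choose x hx1 hx2 using fun i => hA (en q + i)
  let W : ℕ → Set M.X := fun k => ⋃ i ≥ k, Ici (x i)
  have hW : ∀ k w, w ∈ W k ↔ ∃ i ≥ k, x i ≤ w := by
    intro k w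
    simp [W]
  have hWu : ∀ k, IsUpperSet (W k) := by
    intro k a b hab ha
    rw [hW] at ha ⊢
    obtain ⟨i, hi, ha⟩ := ha
    exact ⟨i, hi, ha.trans hab⟩
  have hWa : ∀ k k', k ≤ k' → W k' ⊆ W k := by
    intro k k' hk w hw
    rw [hW] at hw ⊢
    obtain ⟨i, hi, hw⟩ := hw
    exact ⟨i, hk.trans hi, hw⟩
  have hcap : ∀ n, (M.lb (W 0) n).card ≤ S.cap q n := by
    intro n
    by_cases hn : en q < n
    · have h1 : M.lb (W 0) n ⊆ L n ∪ (Finset.range n).biUnion (fun i => M.lb (Ici (x i)) n) := by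
        intro a ha
        obtain ⟨w, hw, ha⟩ := Scale.mem_lab.mp ha
        obtain ⟨i, -, hw⟩ := (hW 0 w).mp hw
        have h2 : a ∈ M.lb (Ici (x i)) n := Scale.mem_lab.mpr ⟨w, hw, ha⟩
        by_cases hi : i < n
        · exact Finset.mem_union_right _
            (Finset.mem_biUnion.mpr ⟨i, Finset.mem_range.mpr hi, h2⟩)
        · rw [hx2 i n (by omega)] at h2
          exact Finset.mem_union_left _ h2
      have h3 := Finset.card_biUnion_le_card_mul (Finset.range n) (fun i => M.lb (Ici (x i)) n)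
        (S.capP q n) fun i _ => (card_lb_Ici (x i) n).trans (S.cap_le_capP (hAq _ (hx1 i)) n)
      have h4 := (Finset.card_le_card h1).trans (Finset.card_union_le _ _)
      have h5 := hL n
      rw [Finset.card_range] at h3
      rw [S.cap_eq hn]
      nlinarith
    · have h1 : M.lb (W 0) n ⊆ L n := by
        intro a ha
        obtain ⟨w, hw, ha⟩ := Scale.mem_lab.mp ha
        obtain ⟨i, -, hw⟩ := (hW 0 w).mp hw
        rw [← hx2 i n (by omega)]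
        exact Scale.mem_lab.mpr ⟨w, hw, ha⟩
      exact (Finset.card_le_card h1).trans ((hL n).trans (S.capP_le_cap q n))
  obtain ⟨γ, hγ⟩ := Scale.stage_bound _ q hcap
  have hWq : ∀ w ∈ W 0, q < M.rk w := by
    intro w hw
    obtain ⟨i, -, hw⟩ := (hW 0 w).mp hw
    exact lt_of_lt_of_le (hAq _ (hx1 i)) (rk_mono hw)
  have hadm0 : ∀ p < q, M.Adm (W 0) p γ := by
    intro p hp
    refine ⟨hWu 0, fun w hw => ⟨hγ _ (M.rk w) fun n a ha => Scale.mem_lab.mpr ⟨w, hw, ha⟩,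
      hp.trans (hWq w hw)⟩, fun n => (hcap n).trans (S.cap_le_capP hp n)⟩
  have hU1 : ∀ w ∈ ⋂ k, W k, ∀ n, S.own (M.st w) (M.rk w) n ⊆ L n := by
    intro w hw n a ha
    obtain ⟨i, hi, hw⟩ := (hW n w).mp (mem_iInter.mp hw n)
    rw [← hx2 i n (by omega)]
    exact Scale.mem_lab.mpr ⟨w, hw, ha⟩
  have hUu : IsUpperSet (⋂ k, W k) := isUpperSet_iInter hWu
  have hhas : ∀ p < q, Has C γ p (⋂ k, W k) := by
    intro p hp
    apply has_iInter hd W (fun k => (hadm0 p hp).subset (hWu k) (hWa 0 k (Nat.zero_le k)))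
    · intro i j
      exact ⟨max i j, hWa _ _ (le_max_left _ _), hWa _ _ (le_max_right _ _)⟩
    · intro k z hz
      exact hl (hz.le_of_mem ((hW k _).mpr ⟨k, le_rfl, le_rfl⟩)) (hAC (hx1 k))
  refine ⟨⋂ k, W k, hUu, fun w hw => ⟨hWq w (mem_iInter.mp hw 0), hU1 w hw, ?_⟩, ?_⟩
  · obtain ⟨i, -, hw⟩ := (hW 0 w).mp (mem_iInter.mp hw 0)
    exact ⟨x i, hx1 i, hw⟩
  · intro p hp z hz
    apply mem_of_has hl hd z (⋂ k, W k) γ (fun w hw => hz.le_of_mem hw)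
    · intro p' hp'
      rw [hz.2.2.1] at hp'
      exact (hadm0 p' (lt_of_lt_of_le hp' hp)).subset hUu (iInter_subset W 0)
    · intro p' hp'
      rw [hz.2.2.1] at hp'
      exact hhas p' (lt_of_lt_of_le hp' hp)

include hl hd in
/-- a Scott closed set is closed for the topology generated by the rank and principal ideals -/
theorem mem_of_approx (u : M.X)
    (h : ∀ p < M.rk u, ∀ F : Finset M.X, (∀ f ∈ F, ¬ u ≤ f) →
      ∃ x ∈ C, p < M.rk x ∧ ∀ f ∈ F, ¬ x ≤ f) : u ∈ C := by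
  classical
  obtain ⟨γ₁, hγ₁⟩ := exists_gt (M.st u)
  apply mem_of_has hl hd u (Ici u) γ₁ subset_rfl (fun p hp => adm_Ici u hp hγ₁)
  intro q hq
  let ι := {F : Finset M.X // ∀ f ∈ F, ¬ u ≤ f}
  have hun : ∀ F G : ι, ∃ H : ι, F.1 ⊆ H.1 ∧ G.1 ⊆ H.1 := by
    intro F G
    refine ⟨⟨F.1 ∪ G.1, fun f hf => ?_⟩, Finset.subset_union_left, Finset.subset_union_right⟩
    rcases Finset.mem_union.mp hf with hf | hf
    · exact F.2 f hf
    · exact G.2 f hf
  have hne : Nonempty ι := ⟨⟨∅, by simp⟩⟩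
  let A : ι → Set M.X := fun F => {x | x ∈ C ∧ q < M.rk x ∧ ∀ f ∈ F.1, ¬ x ≤ f}
  have hAanti : ∀ F G : ι, F.1 ⊆ G.1 → A G ⊆ A F :=
    fun F G hFG x hx => ⟨hx.1, hx.2.1, fun f hf => hx.2.2 f (hFG hf)⟩
  have hnb : (⨅ F, 𝓟 (A F)).NeBot := by
    have : Nonempty M.X := ⟨u⟩
    apply iInf_neBot_of_directed
    · intro F G
      obtain ⟨H, h1, h2⟩ := hun F G
      exact ⟨H, principal_mono.mpr (hAanti _ _ h1), principal_mono.mpr (hAanti _ _ h2)⟩
    · intro F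
      rw [principal_neBot_iff]
      obtain ⟨x, h1, h2, h3⟩ := h q hq F.1 F.2
      exact ⟨x, h1, h2, h3⟩
  obtain ⟨𝒰, h𝒰⟩ := Ultrafilter.exists_le (⨅ F, 𝓟 (A F))
  have hA𝒰 : ∀ F, A F ∈ 𝒰 := fun F => h𝒰 (mem_iInf_of_mem F (mem_principal_self _))
  have hLex : ∀ n, ∃ L : Finset (Fin (S.M n)), {x | M.lb (Ici x) n = L} ∈ 𝒰 := by
    intro n
    obtain ⟨L, hL⟩ := Ultrafilter.eq_pure_of_finite (𝒰.map fun x => M.lb (Ici x) n)
    refine ⟨L, ?_⟩
    have : {L} ∈ 𝒰.map fun x => M.lb (Ici x) n := by rw [hL]; simp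
    exact this
  choose L hL using hLex
  have hagree : ∀ F N, ∃ x ∈ A F, ∀ n ≤ N, M.lb (Ici x) n = L n := by
    intro F N
    have h1 : (⋂ n ∈ Set.Iic N, {x | M.lb (Ici x) n = L n}) ∈ 𝒰 :=
      (biInter_mem (Set.finite_Iic N)).mpr fun n _ => hL n
    obtain ⟨x, hx1, hx2⟩ := 𝒰.nonempty_of_mem (inter_mem (hA𝒰 F) h1)
    exact ⟨x, hx1, fun n hn => mem_iInter₂.mp hx2 n hn⟩
  have hLc : ∀ n, (L n).card ≤ S.capP q n := by
    intro n
    obtain ⟨x, hx1, hx2⟩ := hagree hne.some n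
    rw [← hx2 n le_rfl]
    exact (card_lb_Ici x n).trans (S.cap_le_capP hx1.2.1 n)
  obtain ⟨β, hβ⟩ := Scale.stage_bound L q fun n => (hLc n).trans (S.capP_le_cap q n)
  choose U hU1 hU2 hU3 using fun F => exists_low hl hd q L hLc β (A F) (fun x hx => hx.1)
    (fun x hx => hx.2.1) (hagree F)
  have hadm : ∀ W : Set M.X, IsUpperSet W → (∀ w ∈ W, ∃ G, w ∈ U G) → M.Adm W q β := by
    intro W hW1 hW2
    refine ⟨hW1, fun w hw => ?_, fun n => (Finset.card_le_card ?_).trans (hLc n)⟩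
    · obtain ⟨G, hG⟩ := hW2 w hw
      exact ⟨hβ _ _ (hU2 G w hG).2.1, (hU2 G w hG).1⟩
    · intro a ha
      obtain ⟨w, hw, ha⟩ := Scale.mem_lab.mp ha
      obtain ⟨G, hG⟩ := hW2 w hw
      exact (hU2 G w hG).2.1 n ha
  let W : ι → Set M.X := fun F => {w | ∃ G : ι, F.1 ⊆ G.1 ∧ w ∈ U G}
  have hWu : ∀ F, IsUpperSet (W F) := fun F a b hab ⟨G, h1, h2⟩ => ⟨G, h1, hU1 G hab h2⟩
  have hWadm : ∀ F, M.Adm (W F) q β := fun F => hadm _ (hWu F) fun w ⟨G, _, h2⟩ => ⟨G, h2⟩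
  have hsub : (⋂ F, W F) ⊆ Ici u := by
    intro w hw
    by_contra hcon
    obtain ⟨G, h1, h2⟩ := mem_iInter.mp hw ⟨{w}, fun f hf => by
      rw [Finset.mem_singleton.mp hf]; exact hcon⟩
    obtain ⟨x, hx1, hx2⟩ := (hU2 G w h2).2.2
    exact hx1.2.2 w (h1 (Finset.mem_singleton_self w)) hx2
  have hhas : ∀ p ≤ q, Has C β p (⋂ F, W F) := by
    intro p hp
    apply has_iInter hd W (fun F => (hWadm F).of_le hp)
    · intro F G
      obtain ⟨H, h1, h2⟩ := hun F G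
      exact ⟨H, fun w ⟨K, h3, h4⟩ => ⟨K, h1.trans h3, h4⟩,
        fun w ⟨K, h3, h4⟩ => ⟨K, h2.trans h3, h4⟩⟩
    · intro F
      exact (hU3 F p hp).superset hl ((hadm _ (hU1 F) fun w hw => ⟨F, hw⟩).of_le hp)
        fun w hw => ⟨F, subset_rfl, hw⟩
  intro z hz
  apply mem_of_has hl hd z (⋂ F, W F) β (fun w hw => hz.le_of_mem (hsub hw))
  · intro p hp
    rw [hz.2.2.1] at hp
    exact ((hWadm hne.some).subset (isUpperSet_iInter hWu) (iInter_subset W _)).of_le hp.le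
  · intro p hp
    rw [hz.2.2.1] at hp
    exact hhas p hp.le

end closed

end Model

end Pool.Agent.P.MP_dd23d5_gt
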